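import Pool.Agent.MP_6209da_co.Top
import Pool.Agent.MP_6209da_co.Search

namespace Pool.Agent.Results.MP_6209da_co.Polytopal

open Finset Pool.Agent.MP_6209da_co

/-- The points `p v`, `v ∈ V`, are in general position and span four-space, and every member of `F`
spans an exposed face of their convex hull. -/
def OnPolytope {α : Type} (V : Set α) (F : Set (Finset α)) (p : α → EuclideanSpace ℝ (Fin 4)) :
    Prop :=
  (∀ s : Finset α, (s : Set α) ⊆ V → s.card ≤ 5 → AffineIndependent ℝ (fun x : s => p x)) ∧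
    affineSpan ℝ (p '' V) = ⊤ ∧
    ∀ s ∈ F, IsExposed ℝ (convexHull ℝ (p '' V)) (convexHull ℝ (p '' (s : Set α)))

/-- A straight embedding of the complex with simplices `F` in three-space. -/
def Straight {α : Type} (F : Set (Finset α)) (g : α → EuclideanSpace ℝ (Fin 3)) : Prop :=
  (∀ s ∈ F, AffineIndependent ℝ (fun x : (s : Set α) => g x)) ∧
    ∀ s ∈ F, ∀ t ∈ F, convexHull ℝ (g '' (s : Set α)) ∩ convexHull ℝ (g '' (t : Set α)) ⊆
      convexHull ℝ (g '' ((s : Set α) ∩ (t : Set α)))

/-- Every triangulated torus is a subcomplex of the boundary of a simplicial four-polytope on its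
own vertices, and the projection to the first three coordinates embeds it. -/
theorem result :
    ∀ (n : ℕ) (K : Geometry.SimplicialComplex ℝ (EuclideanSpace ℝ (Fin n))),
      K.faces.Finite →
      Nonempty (↥K.space ≃ₜ (AddCircle (1 : ℝ) × AddCircle (1 : ℝ))) →
      ∃ p : EuclideanSpace ℝ (Fin n) → EuclideanSpace ℝ (Fin 4),
        OnPolytope K.vertices K.faces p ∧
        ∀ g : EuclideanSpace ℝ (Fin n) → EuclideanSpace ℝ (Fin 3),
          (∀ x i, g x i = p x i.castSucc) → Straight K.faces g := by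
  classical
  rintro n K hK ⟨h⟩
  obtain ⟨m, e, Fc, lam, he, hr, hB, hF⟩ := bary_of_complex K hK (M := Tor) h
  have hne : Nonempty (Fin m) := by
    obtain ⟨-, -, s, hs, -⟩ := (hB.range (lam 0)).1 ⟨0, rfl⟩
    obtain ⟨v, -⟩ := hB.nonempty s hs
    exact ⟨v⟩
  obtain ⟨T, hv, hT⟩ := surf_of_loc hB.nonempty hB.down hB.single (loc_of_bary hB)
    (glob_of_bary hB)
  obtain ⟨p₀, h1, h2, h3⟩ := final T hv (all_J T)
  have h4 := fun s (hs : Fc s) => h3 s (hB.nonempty s hs) (hT s hs)
  have hp : ∀ v, Function.extend e p₀ 0 (e v) = p₀ v := he.extend_apply p₀ 0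
  generalize Function.extend e p₀ 0 = p at hp
  obtain rfl : p₀ = fun v => p (e v) := (funext hp).symm
  have hK' : p '' K.vertices = Set.range fun v => p (e v) := by
    rw [← hr, ← Set.range_comp]
    rfl
  refine ⟨p, ⟨fun s hs hc => ?_, by rw [hK', h2], fun s hs => ?_⟩, fun g hg => ?_⟩
  · have hS : (s : Set (EuclideanSpace ℝ (Fin n))) =
        e '' ((s.preimage e he.injOn : Finset (Fin m)) : Set (Fin m)) := by
      rw [coe_preimage, Set.image_preimage_eq_of_subset (hr ▸ hs)]
    refine asm_ind he hS p (h1 _ (le_trans ?_ hc))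
    exact card_le_card_of_injOn e (fun x hx => by simpa using hx) he.injOn
  · obtain ⟨t, ht, hS⟩ := hF s hs
    rw [hK', hS, Set.image_image]
    exact (exposed_of_lower _ Fc hB.nonempty hB.down h4
      (fun v => WithLp.toLp 2 fun i => p (e v) i.castSucc) fun _ _ => rfl).1 t ht
  · obtain ⟨-, h5, h6⟩ := exposed_of_lower _ Fc hB.nonempty hB.down h4 (fun v => g (e v))
      fun v i => hg (e v) i
    refine ⟨fun s hs => ?_, fun s hs t ht => ?_⟩
    · obtain ⟨t, ht, hS⟩ := hF s hs
      exact asm_ind he hS g (h5 t ht)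
    · obtain ⟨s', hs', hS⟩ := hF s hs
      obtain ⟨t', ht', hT'⟩ := hF t ht
      rw [hS, hT', ← Set.image_inter he, Set.image_image, Set.image_image, Set.image_image]
      exact h6 s' t' hs' ht'

end Pool.Agent.Results.MP_6209da_co.Polytopal
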